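import Pool.Agent.H73.PreorderBasic

/-!
# Three properties of a topological space which are equivalent without separation axioms

For every topological space `X`, the following are equivalent: every closed preorder on `X` is
weakly continuous; every closed preorder on `X` has a continuous multi-utility representation;
every closed preorder on `X` is normal.

The main point is that if `A` is closed decreasing, `B` is closed increasing and they are
disjoint, then adding `A × X` and `X × B` to a closed preorder gives again a closed preorder.
-/

namespace Pool.Agent.Results.MP_bb0bf1_gt.AllSpaces

open Pool.Agent.H73.Preord

/-- The three properties of a topological space are equivalent. -/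
theorem result (X : Type*) [TopologicalSpace X] :
    List.TFAE [ClosedPreordersWeaklyContinuous X,
      ∀ r : X → X → Prop, IsClosedPreorder r → HasMultiUtility r,
      ∀ r : X → X → Prop, IsClosedPreorder r → IsNormalRel r] :=
  tfae_property X

end Pool.Agent.Results.MP_bb0bf1_gt.AllSpaces
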