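import Pool.Agent.H73.PreorderFan

/-!
# The property can depend on the bounding number

For a set `κ` let `X_κ` be the disjoint sum of the sequential fan with `κ` spines and of
countably many convergent sequences. Every closed preorder on `X_κ` is weakly continuous if
and only if the cardinal of `κ` is less than the bounding number.
-/

namespace Pool.Agent.Results.MP_bb0bf1_gt.BoundingNumber

open Pool.Agent.H73.Preord Cardinal

/-- Every closed preorder on `X_κ` is weakly continuous iff `|κ|` is less than the bounding
number. -/
theorem result (κ : Type) : ClosedPreordersWeaklyContinuous (FanPt κ) ↔ #κ < boundingNumber :=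
  fan_iff κ

end Pool.Agent.Results.MP_bb0bf1_gt.BoundingNumber
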