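import Pool.Agent.H78.PreT.Union

/-!
# The answer for countable unions of sets with closed projections

The class contains all σ-compact Hausdorff spaces (in particular all countable Hausdorff spaces and
all countable CW complexes), all countably compact sequential Hausdorff spaces and all Hausdorff
spaces with a compact set of non-isolated points.
-/

namespace Pool.Agent.Results.MP_bb0bf1_gt.CountableUnions

open Topology Pool.Agent.H73.Preord Pool.Agent.H78.PreT

/-- Let `X` be a Hausdorff space and let `C 0, C 1, ...` be subsets for which the projections
`C k × X → X` are closed maps. Suppose that the set `X'` of non-isolated points is contained in one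
of them or that their union is a neighbourhood of `X'`. Then every closed preorder on `X` is weakly
continuous if and only if for all disjoint closed sets `A`, `B` the product map
`X × X → X/A × X/B` is a quotient map. If the sets `C k` are compact, this holds if and only if `X'`
is compact, or `X` is regular and for each closed set `A` and each sequence of continuous real
functions which are bounded on `A` there is a neighbourhood of `A` on which all of them are bounded.
If each point of `X'` has one of the sets `C k` as a neighbourhood, it holds if and only if `X` is
normal. -/
theorem result (X : Type*) [TopologicalSpace X] [T2Space X] (C : ℕ → Set X)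
    (hC : ∀ k, IsClosedMap (fun p : C k × X => p.2))
    (hcov : (∃ k, nonIsolated X ⊆ C k) ∨ ∀ x ∈ nonIsolated X, (⋃ k, C k) ∈ 𝓝 x) :
    (ClosedPreordersWeaklyContinuous X ↔
      ∀ A B : Set X, IsClosed A → IsClosed B → Disjoint A B →
        IsQuotientMap (Prod.map (collapse A) (collapse B))) ∧
    ((∀ k, IsCompact (C k)) → (ClosedPreordersWeaklyContinuous X ↔
      IsCompact (nonIsolated X) ∨ (RegularSpace X ∧
        ∀ A : Set X, IsClosed A → ∀ f : ℕ → X → ℝ, (∀ n, Continuous (f n)) →
          (∀ n, Bornology.IsBounded (f n '' A)) →
          ∃ U : Set X, IsOpen U ∧ A ⊆ U ∧ ∀ n, Bornology.IsBounded (f n '' U)))) ∧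
    ((∀ x ∈ nonIsolated X, ∃ k, C k ∈ 𝓝 x) →
      (ClosedPreordersWeaklyContinuous X ↔ NormalSpace X)) :=
  countableUnions C hC hcov

end Pool.Agent.Results.MP_bb0bf1_gt.CountableUnions
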