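import Pool.Agent.H73.PreorderMain

/-!
# The answer for paracompact Hausdorff spaces of pointwise countable type

This class contains all metrizable spaces and all paracompact Hausdorff spaces which are first
countable or locally compact.
-/

namespace Pool.Agent.Results.MP_bb0bf1_gt.PointwiseCountable

open Pool.Agent.H73.Preord

/-- Every closed preorder on a paracompact Hausdorff space `X` of pointwise countable type is
weakly continuous if and only if the set `X'` of the non-isolated points is compact, or `X` is
locally compact and `X'` is Lindelöf. -/
theorem result (X : Type*) [TopologicalSpace X] [T2Space X] [ParacompactSpace X]
    (hX : PointwiseCountableType X) :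
    ClosedPreordersWeaklyContinuous X ↔
      IsCompact (nonIsolated X) ∨ (LocallyCompactSpace X ∧ IsLindelof (nonIsolated X)) :=
  characterisation X hX

end Pool.Agent.Results.MP_bb0bf1_gt.PointwiseCountable
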